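import Pool.Agent.N374.Gun.Ex

/-!
The gunport problem for boards with no side divisible by 3: Pearce's formula fails on the
`14 × 16` board, where the maximum number of holes is `72` and not `(14 * 16 - 2) / 3 = 74`.
-/

set_option autoImplicit false

namespace Pool.Agent.Results.MP_290120_co.PearceFails

open Pool.Agent.N374.Gun

theorem result :
    IsMaxHoles 14 16 72 ∧
    ¬ ∀ m n g : ℕ, 2 ≤ m → 2 ≤ n → ¬ 3 ∣ m → ¬ 3 ∣ n → IsMaxHoles m n g →
      (g : ℚ) = if m % 3 = n % 3 then ((m : ℚ) * n - 4) / 3 else ((m : ℚ) * n - 2) / 3 := by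
  refine ⟨isGreatest_72, fun h => ?_⟩
  have h1 := h 14 16 72 (by norm_num) (by norm_num) (by norm_num) (by norm_num) isGreatest_72
  norm_num at h1

end Pool.Agent.Results.MP_290120_co.PearceFails
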